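import Pool.Agent.Q174.QC.Sim

/-!
# At most one zero
-/

set_option autoImplicit false

namespace Pool.Agent.Q174.QC

open Finset

/-- the number of zeros -/
def zeros {n : ℕ} (z : Fin n → Bool) : ℕ := (univ.filter fun i => z i = false).card

/-- one random bit which depends on the position of the zeros -/
def hsh {n : ℕ} (x r : Fin n → Bool) : Bool := decide (∃ e, x e = false ∧ r e = true)

/-- the message of Alice -/
def msgX {n : ℕ} (x : Fin n → Bool) (r : (Fin n → Bool) × (Fin n → Bool)) : Fin 4 → Bool :=
  ![decide (2 ≤ zeros x), decide (zeros x = 0), hsh x r.1, hsh x r.2]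

/-- the output of Bob -/
def outY {n : ℕ} (y : Fin n → Bool) (r : (Fin n → Bool) × (Fin n → Bool)) (m : Fin 4 → Bool) :
    Bool :=
  decide (m 0 = false ∧ zeros y ≤ 1 ∧
    (m 1 = true ∨ zeros y = 0 ∨ (m 2 = hsh y r.1 ∧ m 3 = hsh y r.2)))

lemma eqcount {n : ℕ} {e e' : Fin n} (h : e ≠ e') :
    2 * (univ.filter fun r : Fin n → Bool => r e = r e').card = 2 ^ n := by
  have h1 : (univ.filter fun r : Fin n → Bool => r e = r e').card =
      (univ.filter fun r : Fin n → Bool => ¬ r e = r e').card := by
    refine Finset.card_bij' (fun r _ => Function.update r e (!r e))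
      (fun r _ => Function.update r e (!r e)) ?_ ?_ ?_ ?_
    · intro r hr
      simp only [mem_filter, mem_univ, true_and] at hr ⊢
      rw [Function.update_self, Function.update_of_ne h.symm, hr]
      cases r e' <;> simp
    · intro r hr
      simp only [mem_filter, mem_univ, true_and] at hr ⊢
      rw [Function.update_self, Function.update_of_ne h.symm]
      cases h2 : r e <;> cases h3 : r e' <;> simp_all
    · intro r _
      simp
    · intro r _
      simp
  have h2 := Finset.card_filter_add_card_filter_not (s := (univ : Finset (Fin n → Bool)))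
    (fun r => r e = r e')
  rw [card_univ, Fintype.card_fun, Fintype.card_bool, Fintype.card_fin] at h2
  omega

lemma hsh_single {n : ℕ} {x r : Fin n → Bool} {e : Fin n} (h : ∀ i, x i = false ↔ i = e) :
    hsh x r = r e := by
  unfold hsh
  have : (∃ i, x i = false ∧ r i = true) ↔ r e = true := by
    constructor
    · rintro ⟨i, h1, h2⟩
      rw [h] at h1
      rwa [← h1]
    · intro h1
      exact ⟨e, (h e).mpr rfl, h1⟩
  simp only [this]
  cases r e <;> rfl

lemma single_of_zeros {n : ℕ} {x : Fin n → Bool} (h : zeros x = 1) :
    ∃ e, ∀ i, x i = false ↔ i = e := by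
  obtain ⟨e, he⟩ := card_eq_one.mp h
  refine ⟨e, fun i => ?_⟩
  have : i ∈ (univ.filter fun i => x i = false) ↔ i ∈ ({e} : Finset (Fin n)) := by rw [he]
  simpa using this

lemma zeros_and_le {n : ℕ} (x y : Fin n → Bool) :
    zeros x ≤ zeros (fun i => x i && y i) ∧ zeros y ≤ zeros (fun i => x i && y i) := by
  unfold zeros
  constructor
  · apply card_le_card
    intro i hi
    simp only [mem_filter, mem_univ, true_and] at hi ⊢
    rw [hi, Bool.false_and]
  · apply card_le_card
    intro i hi
    simp only [mem_filter, mem_univ, true_and] at hi ⊢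
    rw [hi, Bool.and_false]

/-- completeness -/
lemma accept_one {n : ℕ} (x y : Fin n → Bool) (h : zeros (fun i => x i && y i) ≤ 1)
    (r : (Fin n → Bool) × (Fin n → Bool)) : outY y r (msgX x r) = true := by
  have hx := (zeros_and_le x y).1
  have hy := (zeros_and_le x y).2
  unfold outY
  rw [decide_eq_true_eq]
  refine ⟨?_, by omega, ?_⟩
  · simp only [msgX, Matrix.cons_val_zero, decide_eq_false_iff_not]
    omega
  by_cases h0 : zeros x = 0
  · left
    simp [msgX, h0]
  by_cases h1 : zeros y = 0
  · right; left; exact h1
  right; right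
  obtain ⟨e, he⟩ := single_of_zeros (x := x) (by omega)
  obtain ⟨e', he'⟩ := single_of_zeros (x := y) (by omega)
  have hee : e = e' := by
    by_contra hne
    have : ({e, e'} : Finset (Fin n)) ⊆ univ.filter fun i => (x i && y i) = false := by
      intro i hi
      simp only [mem_insert, mem_singleton] at hi
      simp only [mem_filter, mem_univ, true_and]
      rcases hi with rfl | rfl
      · rw [(he i).mpr rfl, Bool.false_and]
      · rw [(he' i).mpr rfl, Bool.and_false]
    have h2 := card_le_card this
    rw [card_pair hne] at h2
    have h3 : (univ.filter fun i => (x i && y i) = false).card ≤ 1 := h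
    omega
  subst hee
  simp only [msgX]
  have h2 : ∀ r : Fin n → Bool, hsh x r = hsh y r := by
    intro r
    rw [hsh_single he, hsh_single he']
  constructor
  · change hsh x r.1 = hsh y r.1
    exact h2 _
  · change hsh x r.2 = hsh y r.2
    exact h2 _

/-- soundness -/
lemma accept_zero {n : ℕ} (x y : Fin n → Bool) (h : 2 ≤ zeros (fun i => x i && y i)) :
    4 * (univ.filter fun r : (Fin n → Bool) × (Fin n → Bool) =>
      outY y r (msgX x r) = true).card ≤ Fintype.card ((Fin n → Bool) × (Fin n → Bool)) := by
  by_cases hx2 : 2 ≤ zeros x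
  · rw [Finset.filter_false_of_mem]
    · simp
    · intro r _
      unfold outY
      rw [decide_eq_true_eq]
      rintro ⟨h1, _⟩
      simp [msgX, hx2] at h1
  by_cases hy2 : 2 ≤ zeros y
  · rw [Finset.filter_false_of_mem]
    · simp
    · intro r _
      unfold outY
      rw [decide_eq_true_eq]
      rintro ⟨_, h1, _⟩
      omega
  -- both have at most one zero
  have hsum : zeros (fun i => x i && y i) ≤ zeros x + zeros y := by
    unfold zeros
    refine (card_le_card ?_).trans (card_union_le _ _)
    intro i hi
    simp only [mem_filter, mem_univ, true_and, mem_union] at hi ⊢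
    exact (Bool.and_eq_false_iff ..).mp hi
  obtain ⟨e, he⟩ := single_of_zeros (x := x) (by omega)
  obtain ⟨e', he'⟩ := single_of_zeros (x := y) (by omega)
  have hee : e ≠ e' := by
    rintro rfl
    have : zeros (fun i => x i && y i) ≤ 1 := by
      unfold zeros
      rw [Finset.card_le_one]
      intro i hi j hj
      simp only [mem_filter, mem_univ, true_and, Bool.and_eq_false_iff] at hi hj
      have h1 : i = e := hi.elim (fun h => (he i).mp h) (fun h => (he' i).mp h)
      have h2 : j = e := hj.elim (fun h => (he j).mp h) (fun h => (he' j).mp h)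
      rw [h1, h2]
    omega
  have hzx : zeros x ≠ 0 := by
    intro h0
    unfold zeros at h0
    rw [card_eq_zero] at h0
    have : e ∈ (univ.filter fun i => x i = false) := by simp [he]
    rw [h0] at this
    exact absurd this (notMem_empty _)
  have hzy : zeros y ≠ 0 := by
    intro h0
    unfold zeros at h0
    rw [card_eq_zero] at h0
    have : e' ∈ (univ.filter fun i => y i = false) := by simp [he']
    rw [h0] at this
    exact absurd this (notMem_empty _)
  have hsub : (univ.filter fun r : (Fin n → Bool) × (Fin n → Bool) =>
      outY y r (msgX x r) = true) ⊆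
      (univ.filter fun r : Fin n → Bool => r e = r e') ×ˢ
      (univ.filter fun r : Fin n → Bool => r e = r e') := by
    intro r hr
    simp only [mem_filter, mem_univ, true_and, mem_product] at hr ⊢
    unfold outY at hr
    rw [decide_eq_true_eq] at hr
    obtain ⟨_, _, h1 | h1 | h1⟩ := hr
    · simp [msgX, hzx] at h1
    · exact absurd h1 hzy
    · obtain ⟨h1, h2⟩ := h1
      change hsh x r.1 = hsh y r.1 at h1
      change hsh x r.2 = hsh y r.2 at h2
      rw [hsh_single he, hsh_single he'] at h1 h2
      exact ⟨h1, h2⟩
  have h1 := card_le_card hsub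
  rw [card_product] at h1
  have h2 := eqcount hee
  rw [Fintype.card_prod, Fintype.card_fun, Fintype.card_bool, Fintype.card_fin, ← h2]
  nlinarith

end Pool.Agent.Q174.QC
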