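import Mathlib

/-!
# Two-party protocols: classical deterministic, and quantum with prior entanglement
-/

set_option autoImplicit false

namespace Pool.Agent.Q174.QC

open Finset

/-- one step of a deterministic protocol -/
def stp {X Y : Type} (owner : List Bool → Bool) (a : List Bool → X → Bool)
    (b : List Bool → Y → Bool) (x : X) (y : Y) (t : List Bool) : List Bool :=
  t ++ [if owner t then a t x else b t y]

section classical

variable {X Y : Type} (owner : List Bool → Bool) (a : List Bool → X → Bool)
  (b : List Bool → Y → Bool)

lemma iter_length (x : X) (y : Y) (c : ℕ) :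
    ((stp owner a b x y)^[c] []).length = c := by
  induction c with
  | zero => rfl
  | succ c ih =>
    rw [Function.iterate_succ_apply', stp, List.length_append, ih]
    rfl

/-- transcripts define rectangles -/
lemma rectangle (x x' : X) (y y' : Y) (c : ℕ)
    (h : (stp owner a b x y)^[c] [] = (stp owner a b x' y')^[c] []) :
    (stp owner a b x y')^[c] [] = (stp owner a b x y)^[c] [] := by
  induction c with
  | zero => rfl
  | succ c ih =>
    rw [Function.iterate_succ_apply', Function.iterate_succ_apply'] at h
    rw [Function.iterate_succ_apply', Function.iterate_succ_apply']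
    unfold stp at h
    have hlen : ((stp owner a b x y)^[c] []).length = ((stp owner a b x' y')^[c] []).length := by
      rw [iter_length, iter_length]
    obtain ⟨h1, h2⟩ := List.append_inj h hlen
    have h3 := ih h1
    rw [h3]
    unfold stp
    rw [List.append_cancel_left_eq]
    rw [List.cons.injEq] at h2 ⊢
    refine ⟨?_, rfl⟩
    split_ifs with ho
    · rfl
    · have h4 := h2.1
      rw [if_neg ho, ← h1, if_neg ho] at h4
      exact h4.symm

end classical

section quantum

variable {A B : Type} [Fintype A] [Fintype B]

/-- Alice's register, the message qubit, Bob's register -/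
abbrev St (A B : Type) := A → Bool → B → ℂ

/-- a unitary on Alice's register and the message qubit -/
def actA (U : Matrix (A × Bool) (A × Bool) ℂ) (s : St A B) : St A B :=
  fun a m b => ∑ p : A × Bool, U (a, m) p * s p.1 p.2 b

/-- a unitary on Bob's register and the message qubit -/
def actB (V : Matrix (B × Bool) (B × Bool) ℂ) (s : St A B) : St A B :=
  fun a m b => ∑ p : B × Bool, V (b, m) p * s a p.2 p.1

/-- the matrix of a permutation of the basis -/
def pmat {I : Type} [DecidableEq I] (π : I ≃ I) : Matrix I I ℂ :=
  Matrix.of fun p p' => if p = π p' then 1 else 0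

lemma pmat_unitary {I : Type} [DecidableEq I] [Fintype I] (π : I ≃ I) :
    pmat π ∈ Matrix.unitaryGroup I ℂ := by
  rw [Matrix.mem_unitaryGroup_iff]
  ext p p'
  rw [Matrix.mul_apply, Matrix.one_apply]
  simp only [pmat, Matrix.of_apply, Matrix.star_eq_conjTranspose, Matrix.conjTranspose_apply]
  have h1 : ∀ j : I, (if p = π j then (1 : ℂ) else 0) * star (if p' = π j then (1 : ℂ) else 0) =
      if j = π.symm p then (if p = p' then 1 else 0) else 0 := by
    intro j
    by_cases h : p = π j
    · subst h
      by_cases h2 : p' = π j
      · simp [h2]
      · have : ¬ (π j = p') := fun h => h2 h.symm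
        simp [h2, this]
    · have : ¬ j = π.symm p := by
        rintro rfl
        exact h (π.apply_symm_apply p).symm
      simp [h, this]
  rw [Finset.sum_congr rfl fun j _ => h1 j, Finset.sum_ite_eq']
  simp

lemma actA_pmat [DecidableEq A] (π : A × Bool ≃ A × Bool) (s : St A B) (a : A) (m : Bool) (b : B) :
    actA (pmat π) s a m b = s (π.symm (a, m)).1 (π.symm (a, m)).2 b := by
  unfold actA pmat
  rw [Finset.sum_eq_single (π.symm (a, m))]
  · simp
  · intro p _ hp
    rw [Matrix.of_apply, if_neg, zero_mul]
    intro h
    apply hp
    rw [h, Equiv.symm_apply_apply]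
  · intro h
    exact absurd (mem_univ _) h

lemma actB_pmat [DecidableEq B] (π : B × Bool ≃ B × Bool) (s : St A B) (a : A) (m : Bool) (b : B) :
    actB (pmat π) s a m b = s a (π.symm (b, m)).2 (π.symm (b, m)).1 := by
  unfold actB pmat
  rw [Finset.sum_eq_single (π.symm (b, m))]
  · simp
  · intro p _ hp
    rw [Matrix.of_apply, if_neg, zero_mul]
    intro h
    apply hp
    rw [h, Equiv.symm_apply_apply]
  · intro h
    exact absurd (mem_univ _) h

end quantum

end Pool.Agent.Q174.QC
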