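import Pool.Agent.Q174.QC.Model

/-!
# Simulation of one-way public-coin protocols by quantum protocols with shared entanglement
-/

set_option autoImplicit false

namespace Pool.Agent.Q174.QC

open Finset

section run

variable {A B : Type} [Fintype A] [Fintype B]

/-- the state after `n` local operations; Alice acts at even times and Bob at odd times -/
def run (ψ : A → B → ℂ) (U : ℕ → Matrix (A × Bool) (A × Bool) ℂ)
    (V : ℕ → Matrix (B × Bool) (B × Bool) ℂ) : ℕ → St A B
  | 0 => fun a m b => if m then 0 else ψ a b
  | n + 1 => if n % 2 = 0 then actA (U n) (run ψ U V n) else actB (V n) (run ψ U V n)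

end run

variable {R : Type} [Fintype R] [DecidableEq R] {t : ℕ}

/-- Alice adds a bit to the message -/
def permA (f : R → Bool) : R × Bool ≃ R × Bool where
  toFun p := (p.1, xor p.2 (f p.1))
  invFun p := (p.1, xor p.2 (f p.1))
  left_inv p := by simp
  right_inv p := by simp

/-- Bob exchanges the message with his memory cell `j` -/
def permB (j : Fin t) : (R × (Fin t → Bool)) × Bool ≃ (R × (Fin t → Bool)) × Bool where
  toFun p := ((p.1.1, Function.update p.1.2 j p.2), p.1.2 j)
  invFun p := ((p.1.1, Function.update p.1.2 j p.2), p.1.2 j)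
  left_inv p := by simp
  right_inv p := by simp

/-- the unitaries of Alice -/
def opA (msg : R → Fin t → Bool) (n : ℕ) : Matrix (R × Bool) (R × Bool) ℂ :=
  if h : n / 2 < t then pmat (permA fun r => msg r ⟨n / 2, h⟩) else 1

/-- the unitaries of Bob -/
def opB (n : ℕ) : Matrix ((R × (Fin t → Bool)) × Bool) ((R × (Fin t → Bool)) × Bool) ℂ :=
  if h : n / 2 < t then pmat (permB ⟨n / 2, h⟩) else 1

lemma opA_unitary (msg : R → Fin t → Bool) (n : ℕ) :
    opA msg n ∈ Matrix.unitaryGroup (R × Bool) ℂ := by
  unfold opA
  split_ifs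
  · exact pmat_unitary _
  · exact one_mem _

lemma opB_unitary (n : ℕ) :
    (opB n : Matrix ((R × (Fin t → Bool)) × Bool) ((R × (Fin t → Bool)) × Bool) ℂ) ∈
      Matrix.unitaryGroup ((R × (Fin t → Bool)) × Bool) ℂ := by
  unfold opB
  split_ifs
  · exact pmat_unitary _
  · exact one_mem _

/-- the bits received so far -/
def mem (msg : R → Fin t → Bool) (r : R) (j : ℕ) : Fin t → Bool :=
  fun i => if i.val < j then msg r i else false

/-- the shared state: a uniform superposition of equal pairs of random strings -/
noncomputable def psi0 (R : Type) [Fintype R] [DecidableEq R] (t : ℕ) :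
    R → (R × (Fin t → Bool)) → ℂ := fun a b =>
  if b.1 = a ∧ b.2 = fun _ => false then ((Real.sqrt (Fintype.card R))⁻¹ : ℝ) else 0

lemma run_even (msg : R → Fin t → Bool) (j : ℕ) (hj : j ≤ t) (a : R) (m : Bool)
    (b : R × (Fin t → Bool)) :
    run (psi0 R t) (opA msg) opB (2 * j) a m b =
      if b.1 = a ∧ m = false ∧ b.2 = mem msg a j then
        (((Real.sqrt (Fintype.card R))⁻¹ : ℝ) : ℂ) else 0 := by
  induction j generalizing a m b with
  | zero =>
    have h0 : mem msg a 0 = fun _ => false := by
      funext i
      simp [mem]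
    simp only [run, psi0, h0]
    cases m <;> simp
  | succ j ih =>
    have hjt : j < t := hj
    have e1 : 2 * (j + 1) = (2 * j + 1) + 1 := by ring
    rw [e1, run, if_neg (by omega), run, if_pos (by omega)]
    have h1 : opA msg (2 * j) = pmat (permA fun r => msg r ⟨j, hjt⟩) := by
      unfold opA
      have : 2 * j / 2 = j := by omega
      simp only [this, dif_pos hjt]
    have h2 : (opB (2 * j + 1) : Matrix ((R × (Fin t → Bool)) × Bool)
        ((R × (Fin t → Bool)) × Bool) ℂ) = pmat (permB ⟨j, hjt⟩) := by
      unfold opB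
      have : (2 * j + 1) / 2 = j := by omega
      simp only [this, dif_pos hjt]
    have key : (b.1 = a ∧ (b.2 ⟨j, hjt⟩ ^^ msg a ⟨j, hjt⟩) = false ∧
        Function.update b.2 ⟨j, hjt⟩ m = mem msg a j) ↔
        (b.1 = a ∧ m = false ∧ b.2 = mem msg a (j + 1)) := by
      have hj0 : mem msg a j ⟨j, hjt⟩ = false := by simp [mem]
      have hj1 : mem msg a (j + 1) ⟨j, hjt⟩ = msg a ⟨j, hjt⟩ := by simp [mem]
      have hup : Function.update (mem msg a (j + 1)) ⟨j, hjt⟩ false = mem msg a j := by
        funext i
        by_cases hi : i = ⟨j, hjt⟩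
        · subst hi
          rw [Function.update_self, hj0]
        · rw [Function.update_of_ne hi]
          unfold mem
          have : i.val ≠ j := fun h => hi (Fin.ext h)
          by_cases h3 : i.val < j
          · rw [if_pos h3, if_pos (by omega)]
          · rw [if_neg h3, if_neg (by omega)]
      constructor
      · rintro ⟨h1, h2, h3⟩
        refine ⟨h1, ?_, ?_⟩
        · have := congrFun h3 ⟨j, hjt⟩
          rw [Function.update_self, hj0] at this
          exact this
        · funext i
          by_cases hi : i = ⟨j, hjt⟩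
          · subst hi
            rw [hj1]
            revert h2
            cases b.2 ⟨j, hjt⟩ <;> cases msg a ⟨j, hjt⟩ <;> simp
          · have := congrFun h3 i
            rw [Function.update_of_ne hi, ← hup, Function.update_of_ne hi] at this
            exact this
      · rintro ⟨h1, rfl, h3⟩
        refine ⟨h1, ?_, ?_⟩
        · rw [h3, hj1, Bool.xor_self]
        · rw [h3, hup]
    rw [h1, h2, actB_pmat, actA_pmat, ih (by omega)]
    exact if_congr key rfl rfl

/-- the acceptance probability is the probability of acceptance of the classical protocol -/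
lemma accept_eq [Nonempty R] (msg : R → Fin t → Bool) (acc : R → (Fin t → Bool) → Bool) :
    (∑ a : R, ∑ m : Bool, ∑ b : R × (Fin t → Bool),
      if acc b.1 b.2 then ‖run (psi0 R t) (opA msg) opB (2 * t) a m b‖ ^ 2 else 0) =
      ((univ.filter fun r => acc r (msg r)).card : ℝ) / Fintype.card R := by
  have hmem : ∀ a, mem msg a t = msg a := by
    intro a
    funext i
    simp [mem]
  have hpos : (0 : ℝ) < Fintype.card R := by
    exact_mod_cast Fintype.card_pos
  have h1 : ∀ a : R, (∑ m : Bool, ∑ b : R × (Fin t → Bool),
      if acc b.1 b.2 then ‖run (psi0 R t) (opA msg) opB (2 * t) a m b‖ ^ 2 else 0) =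
      if acc a (msg a) then (1 : ℝ) / Fintype.card R else 0 := by
    intro a
    have hz : ∑ b : R × (Fin t → Bool),
        (if acc b.1 b.2 then ‖run (psi0 R t) (opA msg) opB (2 * t) a true b‖ ^ 2 else 0) = 0 := by
      refine Finset.sum_eq_zero fun b _ => ?_
      rw [run_even msg t le_rfl]
      simp
    rw [Fintype.sum_bool, hz, zero_add, Finset.sum_eq_single (a, msg a)]
    · rw [run_even msg t le_rfl, hmem]
      simp only [and_self, if_true]
      split_ifs
      · rw [Complex.norm_real, Real.norm_eq_abs, sq_abs, inv_pow, Real.sq_sqrt hpos.le, one_div]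
      · rfl
    · rintro ⟨b1, b2⟩ _ hb
      have hne : ¬ ((b1, b2).1 = a ∧ false = false ∧ (b1, b2).2 = msg a) := by
        rintro ⟨h1, _, h3⟩
        apply hb
        simp only at h1 h3
        rw [h1, h3]
      rw [run_even msg t le_rfl, hmem, if_neg hne]
      simp
    · intro h
      exact absurd (mem_univ _) h
  rw [Finset.sum_congr rfl fun a _ => h1 a, ← Finset.sum_filter, Finset.sum_const, nsmul_eq_mul]
  ring

lemma psi0_unit [Nonempty R] : ∑ a : R, ∑ b : R × (Fin t → Bool), ‖psi0 R t a b‖ ^ 2 = 1 := by
  have hpos : (0 : ℝ) < Fintype.card R := by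
    exact_mod_cast Fintype.card_pos
  have h1 : ∀ a : R, ∑ b : R × (Fin t → Bool), ‖psi0 R t a b‖ ^ 2 = 1 / Fintype.card R := by
    intro a
    rw [Finset.sum_eq_single (a, fun _ => false)]
    · simp only [psi0, and_self, if_true]
      rw [Complex.norm_real, Real.norm_eq_abs, sq_abs, inv_pow, Real.sq_sqrt hpos.le, one_div]
    · rintro ⟨b1, b2⟩ _ hb
      rw [psi0, if_neg]
      · simp
      · rintro ⟨h1, h3⟩
        apply hb
        simp only at h1 h3
        rw [h1, h3]
    · intro h
      exact absurd (mem_univ _) h
  rw [Finset.sum_congr rfl fun a _ => h1 a, Finset.sum_const, card_univ, nsmul_eq_mul]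
  field_simp

end Pool.Agent.Q174.QC
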